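import Mathlib

namespace H11.NoLine
open Finset Filter

/-- `n` is attained below `x`: integers `0 < a 1 < ... < a n ≤ x`, no three points `(j, a j)` on a
line. -/
def Attained (x : ℝ) (n : ℕ) : Prop :=
  ∃ a : ℕ → ℤ, 0 < a 1 ∧ (∀ i j, 1 ≤ i → i < j → j ≤ n → a i < a j) ∧ (a n : ℝ) ≤ x ∧
    ∀ i j k, 1 ≤ i → i < j → j < k → k ≤ n →
      ¬ Collinear ℝ ({((i : ℝ), (a i : ℝ)), ((j : ℝ), (a j : ℝ)), ((k : ℝ), (a k : ℝ))} :
        Set (ℝ × ℝ))

/-- the largest attained `n ≥ 1` -/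
noncomputable def N (x : ℝ) : ℕ := sSup {n | 1 ≤ n ∧ Attained x n}

open Classical in
lemma counting {J : Type*} (T : Finset J) (m : ℕ) (hm : 0 < m) (Val : Finset ℤ → (ℤ →₀ ℕ) → Prop)
    (I I' : ℤ → J → ℤ) (Q : ℤ → J → ℕ → ℕ → ℕ → Prop) (w : J → ℝ)
    (h0 : Val ∅ 0)
    (hres : ∀ X σ i, Val X σ → Val (X.erase i) (σ.erase i))
    (hext : ∀ X σ v c, v ∉ X → Val X σ → ¬ Val (insert v X) (σ.update v c) →
      ∃ j ∈ T, I v j ∈ X ∧ I' v j ∈ X ∧ I v j ≠ I' v j ∧ Q v j (σ (I v j)) (σ (I' v j)) c)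
    (hw : ∀ v j z, (((range m ×ˢ range m).filter fun e : ℕ × ℕ => Q v j z e.1 e.2).card : ℝ) ≤ w j)
    (hs : ∑ j ∈ T, w j ≤ (m : ℝ)^2 / 4) (X : Finset ℤ) :
    ∃ σ : ℤ →₀ ℕ, (∀ i ∈ X, σ i < m) ∧ Val X σ := by
  set A : Finset ℤ → Finset (ℤ →₀ ℕ) := fun X => (X.finsupp fun _ => range m).filter (Val X)
    with hA
  have mA : ∀ X σ, σ ∈ A X ↔ (σ.support ⊆ X ∧ ∀ i ∈ X, σ i < m) ∧ Val X σ := by
    intro X σ; simp [hA, mem_finsupp_iff]
  have hmr : (0:ℝ) < m := by exact_mod_cast hm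
  have step : ∀ k, ∀ X : Finset ℤ, X.card = k → ∀ v, v ∉ X →
      (m : ℝ) * (A X).card ≤ 2 * (A (insert v X)).card := by
    intro k
    induction k using Nat.strong_induction_on with
    | _ k ih =>
    intro X hX v hv
    set G := (A X ×ˢ range m).filter fun e => Val (insert v X) (e.1.update v e.2) with hG
    set B : J → Finset ((ℤ →₀ ℕ) × ℕ) := fun j => (A X ×ˢ range m).filter fun e =>
      I v j ∈ X ∧ I' v j ∈ X ∧ I v j ≠ I' v j ∧ Q v j (e.1 (I v j)) (e.1 (I' v j)) e.2 with hB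
    have cov : A X ×ˢ range m ⊆ G ∪ T.biUnion B := by
      intro e he
      by_cases h : Val (insert v X) (e.1.update v e.2)
      · exact mem_union_left _ (mem_filter.2 ⟨he, h⟩)
      · obtain ⟨j, hj, h2⟩ := hext X e.1 v e.2 hv ((mA _ _).1 (mem_product.1 he).1).2 h
        exact mem_union_right _ (mem_biUnion.2 ⟨j, hj, mem_filter.2 ⟨he, h2⟩⟩)
    have z : ∀ σ ∈ A X, σ v = 0 := fun σ hσ => by
      by_contra h; exact hv (((mA _ _).1 hσ).1.1 (Finsupp.mem_support_iff.2 h))
    have g1 : G.card ≤ (A (insert v X)).card := by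
      refine card_le_card_of_injOn (fun e => e.1.update v e.2) (fun e he => ?_) ?_
      · obtain ⟨he1, he2⟩ := mem_filter.1 he
        obtain ⟨a1, a2⟩ := mem_product.1 he1
        obtain ⟨⟨b1, b2⟩, -⟩ := (mA _ _).1 a1
        refine (mA _ _).2 ⟨⟨(Finsupp.support_update_subset _ _ ).trans
          (insert_subset_insert _ b1), fun i hi => ?_⟩, he2⟩
        rw [Finsupp.update_apply]
        split_ifs with c
        · exact mem_range.1 a2
        · exact b2 i ((mem_insert.1 hi).resolve_left c)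
      · intro e he e' he' h
        have a1 := z _ (mem_product.1 (mem_filter.1 he).1).1
        have a2 := z _ (mem_product.1 (mem_filter.1 he').1).1
        have h1 : ∀ i, (e.1.update v e.2) i = (e'.1.update v e'.2) i := fun i =>
          DFunLike.congr_fun h i
        refine Prod.ext (Finsupp.ext fun i => ?_) (by simpa using h1 v)
        by_cases c : i = v
        · rw [c, a1, a2]
        · simpa [Finsupp.update_apply, c] using h1 i
    have g2 : ∀ j, (m : ℝ) * (B j).card ≤ 2 * (A X).card * w j := by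
      intro j
      have w0 : 0 ≤ w j := le_trans (Nat.cast_nonneg _) (hw v j 0)
      rcases (B j).eq_empty_or_nonempty with h | ⟨e0, he0⟩
      · rw [h]; simp; positivity
      obtain ⟨-, c1, c2, c3, -⟩ := mem_filter.1 he0
      have i1 := ih (X.erase (I' v j)).card (by rw [← hX]; exact card_erase_lt_of_mem c2) _ rfl
        (I' v j) (notMem_erase _ _)
      rw [insert_erase c2] at i1
      have i2 : ((B j).card : ℝ) ≤ (A (X.erase (I' v j))).card * w j := by
        rw [card_eq_sum_card_fiberwise (f := fun e : (ℤ →₀ ℕ) × ℕ => e.1.erase (I' v j))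
          (t := A (X.erase (I' v j))) (fun e he => by
            obtain ⟨⟨b1, b2⟩, b3⟩ := (mA _ _).1 (mem_product.1 (mem_filter.1 he).1).1
            refine (mA _ _).2 ⟨⟨?_, fun i hi => ?_⟩, hres _ _ _ b3⟩
            · rw [Finsupp.support_erase]; exact erase_subset_erase _ b1
            · rw [Finsupp.erase_ne (mem_erase.1 hi).1]; exact b2 i (mem_of_mem_erase hi))]
        push_cast
        rw [← nsmul_eq_mul]
        refine sum_le_card_nsmul _ _ _ fun τ _ => le_trans ?_ (hw v j (τ (I v j)))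
        refine Nat.cast_le.2 (card_le_card_of_injOn (fun e => (e.1 (I' v j), e.2))
          (fun e he => ?_) fun e he e' he' h => ?_)
        · obtain ⟨he1, he2⟩ := mem_filter.1 he
          obtain ⟨he3, -, -, -, he4⟩ := mem_filter.1 he1
          obtain ⟨a1, a2⟩ := mem_product.1 he3
          refine mem_filter.2 ⟨mem_product.2 ⟨mem_range.2 (((mA _ _).1 a1).1.2 _ c2), a2⟩, ?_⟩
          rw [← he2, Finsupp.erase_ne c3]; exact he4
        · have a1 := (mem_filter.1 he).2
          have a2 := (mem_filter.1 he').2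
          have h := Prod.mk.inj h
          refine Prod.ext (Finsupp.ext fun i => ?_) h.2
          by_cases c : i = I' v j
          · rw [c]; exact h.1
          · have := DFunLike.congr_fun (a1.trans a2.symm) i
            rwa [Finsupp.erase_ne c, Finsupp.erase_ne c] at this
      nlinarith [mul_le_mul_of_nonneg_left i2 hmr.le, mul_le_mul_of_nonneg_right i1 w0]
    have c1 := (card_le_card cov).trans ((card_union_le _ _).trans
      (Nat.add_le_add g1 card_biUnion_le))
    rw [card_product, card_range] at c1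
    have c2 : ((A X).card : ℝ) * m ≤ (A (insert v X)).card + ∑ j ∈ T, ((B j).card : ℝ) := by
      exact_mod_cast c1
    have c3 : (m : ℝ) * ∑ j ∈ T, ((B j).card : ℝ) ≤ 2 * (A X).card * ((m : ℝ)^2 / 4) := by
      rw [mul_sum]
      refine (sum_le_sum fun j _ => g2 j).trans ?_
      rw [← mul_sum]
      exact mul_le_mul_of_nonneg_left hs (by positivity)
    have c4 := mul_le_mul_of_nonneg_left c2 hmr.le
    have : (m : ℝ) * (m * (A X).card) ≤ m * (2 * (A (insert v X)).card) := by nlinarith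
    exact le_of_mul_le_mul_left this hmr
  have pos : ∀ X : Finset ℤ, (0:ℝ) < (A X).card := by
    intro X
    induction X using Finset.induction_on with
    | empty => exact_mod_cast card_pos.2 ⟨0, (mA _ _).2 ⟨by simp, h0⟩⟩
    | insert v X hv ih => have := step _ X rfl v hv; nlinarith [mul_pos hmr ih]
  obtain ⟨σ, hσ⟩ := card_pos.1 (show 0 < (A X).card by exact_mod_cast pos X)
  exact ⟨σ, ((mA _ _).1 hσ).1.2, ((mA _ _).1 hσ).2⟩

lemma sols (m A B : ℕ) (hB : 0 < B) (k1 k2 : ℤ) (f : ℕ × ℕ → ℕ × ℕ) (hf : f = id ∨ f = Prod.swap)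
    (S : Finset (ℕ × ℕ)) (hS : ∀ e ∈ S, e.1 < m ∧ e.2 < m ∧
      (A : ℤ) * ((f e).1 + k1) = B * ((f e).2 + k2)) :
    (S.card : ℝ) ≤ 1 + m * ((Nat.gcd A B : ℝ) / B) := by
  have hg : 0 < Nat.gcd A B := Nat.gcd_pos_of_pos_right _ hB
  obtain ⟨A', B', hc, hA, hB'⟩ := Nat.exists_coprime A B
  set g := Nat.gcd A B
  have hB0 : 0 < B' := Nat.pos_of_ne_zero fun h => by rw [h] at hB'; omega
  have f1 : ∀ e ∈ S, (f e).1 < m := fun e he => by
    rcases hf with rfl | rfl; exacts [(hS e he).1, (hS e he).2.1]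
  have finj : Function.Injective f := by
    rcases hf with rfl | rfl; exacts [Function.injective_id, Prod.swap_injective]
  have h1 : S.card ≤ (range (m / B' + 1)).card := by
    refine card_le_card_of_injOn (fun e => (f e).1 / B') (fun e he => ?_) fun e he e' he' h => ?_
    · exact mem_coe.2 (mem_range.2 (Nat.lt_succ_of_le (Nat.div_le_div_right (f1 e he).le)))
    · have a1 := (hS e he).2.2
      have a2 := (hS e' he').2.2
      have a3 : (A' : ℤ) * ((f e).1 - (f e').1) = B' * ((f e).2 - (f e').2) := by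
        have hgz : (g : ℤ) ≠ 0 := by exact_mod_cast hg.ne'
        apply mul_right_cancel₀ hgz
        have e1 : (A : ℤ) = A' * g := by exact_mod_cast hA
        have e2 : (B : ℤ) = B' * g := by exact_mod_cast hB'
        rw [e1, e2] at a1 a2
        linear_combination a1 - a2
      have a4 : (B' : ℤ) ∣ ((f e).1 - (f e').1 : ℤ) :=
        (Nat.isCoprime_iff_coprime.2 hc.symm).dvd_of_dvd_mul_left ⟨_, a3⟩
      have a5 : (f e').1 % B' = (f e).1 % B' := Nat.modEq_iff_dvd.2 a4
      have h' : (f e).1 / B' = (f e').1 / B' := h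
      have a6 : (f e).1 = (f e').1 := by
        rw [← Nat.div_add_mod (f e).1 B', ← Nat.div_add_mod (f e').1 B', a5, h']
      apply finj
      refine Prod.ext a6 ?_
      rw [a6, sub_self, mul_zero] at a3
      have : ((f e).2 - (f e').2 : ℤ) = 0 :=
        (mul_eq_zero.1 a3.symm).resolve_left (by exact_mod_cast hB0.ne')
      omega
  rw [card_range] at h1
  have h2 : (S.card : ℝ) ≤ ((m / B' : ℕ) : ℝ) + 1 := by exact_mod_cast h1
  have h3 : ((m / B' : ℕ) : ℝ) ≤ m / B' := Nat.cast_div_le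
  have h4 : (g : ℝ) / B = 1 / B' := by
    rw [hB']; push_cast
    have : (g : ℝ) ≠ 0 := by exact_mod_cast hg.ne'
    field_simp
  rw [h4, mul_one_div]; linarith

/-- pairs with small product -/
def J0 (K : ℕ) : Finset (ℕ × ℕ) := (Icc 1 K ×ˢ Icc 1 K).filter fun e => e.1 * e.2 ≤ K

lemma harm (K : ℕ) : ∑ u ∈ Icc 1 K, (1:ℝ) / u ≤ 1 + Real.log K := by
  have := harmonic_le_one_add_log K
  rw [harmonic_eq_sum_Icc] at this
  push_cast at this
  simpa using this

lemma J0_card (K : ℕ) : ((J0 K).card : ℝ) ≤ K * (1 + Real.log K) := by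
  have : (J0 K).card = ∑ u ∈ Icc 1 K, ((Icc 1 K).filter fun v => u * v ≤ K).card := by
    unfold J0
    rw [card_filter, sum_product]
    simp only [card_filter]
  rw [this]; push_cast
  refine le_trans (sum_le_sum (g := fun u : ℕ => (K : ℝ) * (1 / u)) fun u hu => ?_) ?_
  · have hu1 := (mem_Icc.1 hu).1
    have : ((Icc 1 K).filter fun v => u * v ≤ K).card ≤ (Icc 1 (K / u)).card :=
      card_le_card fun v hv => by
        obtain ⟨a, b⟩ := mem_filter.1 hv
        exact mem_Icc.2 ⟨(mem_Icc.1 a).1, (Nat.le_div_iff_mul_le hu1).2 (by rwa [mul_comm])⟩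
    rw [Nat.card_Icc, Nat.add_sub_cancel] at this
    rw [mul_one_div]
    exact (Nat.cast_le.2 this).trans Nat.cast_div_le
  · rw [← mul_sum]; exact mul_le_mul_of_nonneg_left (harm K) (Nat.cast_nonneg _)

lemma half (K R : ℕ) (hR : K < (R + 1) * (R + 1)) (S : Finset (ℕ × ℕ))
    (hS : ∀ e ∈ S, 1 ≤ e.1 ∧ e.1 ≤ e.2 ∧ e.1 * e.2 ≤ K) :
    ∑ e ∈ S, (Nat.gcd e.1 e.2 : ℝ) / e.2 ≤ (J0 R).card * (1 + Real.log K) := by
  set φ : ℕ × ℕ → (ℕ × ℕ) × ℕ := fun e => ((Nat.gcd e.1 e.2, e.1 / Nat.gcd e.1 e.2),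
    e.2 / Nat.gcd e.1 e.2) with hφ
  have inj : Set.InjOn φ S := by
    intro e _ e' _ h
    simp only [hφ, Prod.mk.injEq] at h
    obtain ⟨⟨h1, h2⟩, h3⟩ := h
    refine Prod.ext ?_ ?_
    · rw [← Nat.mul_div_cancel' (Nat.gcd_dvd_left e.1 e.2), h2, h1,
        Nat.mul_div_cancel' (Nat.gcd_dvd_left _ _)]
    · rw [← Nat.mul_div_cancel' (Nat.gcd_dvd_right e.1 e.2), h3, h1,
        Nat.mul_div_cancel' (Nat.gcd_dvd_right _ _)]
  calc _ = ∑ e ∈ S, (1:ℝ) / ((φ e).2 : ℕ) := by
        refine sum_congr rfl fun e he => ?_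
        have hg : 0 < Nat.gcd e.1 e.2 := Nat.gcd_pos_of_pos_left _ (hS e he).1
        simp only [hφ]
        rw [Nat.cast_div (Nat.gcd_dvd_right _ _) (by exact_mod_cast hg.ne'), one_div_div]
    _ = ∑ y ∈ S.image φ, (1:ℝ) / (y.2 : ℕ) :=
        (sum_image (f := fun y : (ℕ × ℕ) × ℕ => (1:ℝ) / (y.2 : ℕ)) inj).symm
    _ ≤ ∑ y ∈ J0 R ×ˢ Icc 1 K, (1:ℝ) / (y.2 : ℕ) := by
        refine sum_le_sum_of_subset_of_nonneg (fun y hy => ?_) fun _ _ _ => by positivity
        obtain ⟨e, he, rfl⟩ := mem_image.1 hy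
        obtain ⟨a1, a2, a3⟩ := hS e he
        have hg : 0 < Nat.gcd e.1 e.2 := Nat.gcd_pos_of_pos_left _ a1
        have b1 : e.1 ≤ R := by
          by_contra h
          have := Nat.mul_le_mul (show R + 1 ≤ e.1 by omega) (show R + 1 ≤ e.2 by omega)
          omega
        have b2 := Nat.gcd_le_left e.2 a1
        have b3 := Nat.div_le_self e.1 (Nat.gcd e.1 e.2)
        have b4 := Nat.div_le_self e.2 (Nat.gcd e.1 e.2)
        have b5 : e.2 ≤ K := le_trans (Nat.le_mul_of_pos_left _ a1) a3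
        simp only [hφ, J0, mem_product, mem_filter, mem_Icc]
        refine ⟨⟨⟨⟨hg, by omega⟩, Nat.div_pos b2 hg, by omega⟩, ?_⟩,
          Nat.div_pos (by omega) hg, by omega⟩
        rw [Nat.mul_div_cancel' (Nat.gcd_dvd_left _ _)]; exact b1
    _ = (J0 R).card * ∑ u ∈ Icc 1 K, (1:ℝ) / u := by
        rw [sum_product]; simp
    _ ≤ _ := mul_le_mul_of_nonneg_left (harm K) (Nat.cast_nonneg _)

lemma wsum (K R : ℕ) (hR : K < (R + 1) * (R + 1)) :
    ∑ e ∈ J0 K, (Nat.gcd e.1 e.2 : ℝ) / ((e.1 + e.2 : ℕ) : ℝ)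
      ≤ 2 * ((J0 R).card * (1 + Real.log K)) := by
  have mJ : ∀ e ∈ J0 K, 1 ≤ e.1 ∧ 1 ≤ e.2 ∧ e.1 * e.2 ≤ K := fun e he => by
    simp only [J0, mem_filter, mem_product, mem_Icc] at he; exact ⟨he.1.1.1, he.1.2.1, he.2⟩
  rw [← sum_filter_add_sum_filter_not (J0 K) (fun e => e.1 ≤ e.2), two_mul]
  refine add_le_add (le_trans (sum_le_sum fun e he => ?_) (half K R hR _ fun e he => ?_)) ?_
  · have := (mJ e (mem_filter.1 he).1).2.1
    exact div_le_div_of_nonneg_left (Nat.cast_nonneg _) (by exact_mod_cast this)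
      (by exact_mod_cast Nat.le_add_left _ _)
  · exact ⟨(mJ e (mem_filter.1 he).1).1, (mem_filter.1 he).2, (mJ e (mem_filter.1 he).1).2.2⟩
  · refine le_trans ?_ (half K R hR (((J0 K).filter fun e => ¬ e.1 ≤ e.2).image Prod.swap)
      fun e he => ?_)
    · rw [sum_image (Prod.swap_injective.injOn)]
      refine sum_le_sum fun e he => ?_
      have := (mJ e (mem_filter.1 he).1).1
      simp only [Prod.fst_swap, Prod.snd_swap]
      rw [Nat.gcd_comm e.2]
      exact div_le_div_of_nonneg_left (Nat.cast_nonneg _) (by exact_mod_cast this)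
        (by exact_mod_cast Nat.le_add_right _ _)
    · obtain ⟨e', he', rfl⟩ := mem_image.1 he
      obtain ⟨a1, a2⟩ := mem_filter.1 he'
      obtain ⟨b1, b2, b3⟩ := mJ e' a1
      simp only [Prod.fst_swap, Prod.snd_swap]
      exact ⟨b2, by omega, by rwa [mul_comm]⟩

/-- convex drift -/
def F (m D : ℕ) (j : ℤ) : ℤ := m * j + j * j / D

lemma convex_bound (m D : ℕ) (hD : 0 < D) (p : ℤ) (u v x y z : ℕ) (hu : 1 ≤ u) (hv : 1 ≤ v)
    (hy : y < m) (h : (u : ℤ) * (F m D (p + u + v) + z - (F m D p + x))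
      = ((u + v : ℕ) : ℤ) * (F m D (p + u) + y - (F m D p + x))) : u * v ≤ D * (m + 1) := by
  have hDz : (0:ℤ) < D := by exact_mod_cast hD
  have e : ∀ j : ℤ, D * (j * j / D) ≤ j * j ∧ j * j < D * (j * j / D) + D := fun j =>
    ⟨Int.mul_ediv_self_le hDz.ne', Int.lt_mul_ediv_self_add hDz⟩
  obtain ⟨a1, a2⟩ := e p
  obtain ⟨b1, b2⟩ := e (p + u)
  obtain ⟨c1, c2⟩ := e (p + u + v)
  unfold F at h
  push_cast at h
  set P := p * p / D
  set Q := (p + u) * (p + u) / D
  set R := (p + u + v) * (p + u + v) / D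
  have hu' : (1:ℤ) ≤ u := by exact_mod_cast hu
  have hv' : (1:ℤ) ≤ v := by exact_mod_cast hv
  have hy' : (y:ℤ) ≤ m := by exact_mod_cast hy.le
  have hx' : (0:ℤ) ≤ x := Int.natCast_nonneg _
  have hz' : (0:ℤ) ≤ z := Int.natCast_nonneg _
  have k1 : (u:ℤ) * R + v * P - (u + v) * Q ≤ (u + v) * m := by
    have : (u:ℤ) * R + v * P - (u + v) * Q = (u + v) * y - u * z - v * x := by linear_combination h
    rw [this]; nlinarith
  have k2 : (u:ℤ) * v * (u + v) ≤ D * (u * R + v * P - (u + v) * Q) + D * (u + v) := by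
    have t1 := mul_le_mul_of_nonneg_left c2.le (show (0:ℤ) ≤ u by omega)
    have t2 := mul_le_mul_of_nonneg_left a2.le (show (0:ℤ) ≤ v by omega)
    have t3 := mul_le_mul_of_nonneg_left b1 (show (0:ℤ) ≤ u + v by omega)
    nlinarith
  have k3 := mul_le_mul_of_nonneg_left k1 hDz.le
  have k4 : (u:ℤ) * v * (u + v) ≤ D * (m + 1) * (u + v) := by nlinarith
  have := le_of_mul_le_mul_right k4 (show (0:ℤ) < u + v by omega)
  exact_mod_cast this

lemma exists_seq (m D R : ℕ) (hm : 0 < m) (hD : 0 < D) (hR : D * (m + 1) < (R + 1) * (R + 1))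
    (hc : 3 * (((J0 (D * (m + 1))).card : ℝ) + m * (2 * ((J0 R).card
      * (1 + Real.log (D * (m + 1) : ℕ))))) ≤ (m : ℝ)^2 / 4) (X : Finset ℤ) :
    ∃ b : ℤ → ℕ, (∀ i ∈ X, b i < m) ∧ ∀ (p : ℤ) (u v : ℕ), 1 ≤ u → 1 ≤ v → p ∈ X → p + u ∈ X →
      p + u + v ∈ X → (u : ℤ) * (F m D (p + u + v) + b (p + u + v) - (F m D p + b p))
        ≠ ((u + v : ℕ) : ℤ) * (F m D (p + u) + b (p + u) - (F m D p + b p)) := by
  classical
  set K := D * (m + 1) with hK
  set C : ℤ → ℕ → ℕ → ℕ → ℕ → ℕ → Prop := fun p u v x y z =>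
    (u : ℤ) * (F m D (p + u + v) + z - (F m D p + x))
      = ((u + v : ℕ) : ℤ) * (F m D (p + u) + y - (F m D p + x)) with hC
  have key := counting (J := Fin 3 × ℕ × ℕ) (univ ×ˢ J0 K) m hm
    (fun X σ => ∀ (p : ℤ) (u v : ℕ), 1 ≤ u → 1 ≤ v → p ∈ X → p + u ∈ X →
      p + u + v ∈ X → σ (p + u) < m → ¬ C p u v (σ p) (σ (p + u)) (σ (p + u + v)))
    (fun v0 j => if j.1 = 0 then v0 + j.2.1 + j.2.2 else if j.1 = 1 then v0 - j.2.1
      else v0 - j.2.2 - j.2.1)
    (fun v0 j => if j.1 = 0 then v0 + j.2.1 else if j.1 = 1 then v0 + j.2.2 else v0 - j.2.2)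
    (fun v0 j s s' c => 1 ≤ j.2.1 ∧ if j.1 = 0 then C v0 j.2.1 j.2.2 c s' s else if j.1 = 1 then
      C (v0 - j.2.1) j.2.1 j.2.2 s c s' else C (v0 - j.2.2 - j.2.1) j.2.1 j.2.2 s s' c)
    (fun j => 1 + m * ((Nat.gcd j.2.1 j.2.2 : ℝ) / ((j.2.1 + j.2.2 : ℕ) : ℝ)))
    (by simp)
  obtain ⟨σ, h1, h2⟩ := key
    (by
      intro X σ i h p u v hu hv a1 a2 a3
      rw [Finsupp.erase_ne (mem_erase.1 a1).1, Finsupp.erase_ne (mem_erase.1 a2).1,
        Finsupp.erase_ne (mem_erase.1 a3).1]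
      exact h p u v hu hv (mem_of_mem_erase a1) (mem_of_mem_erase a2) (mem_of_mem_erase a3))
    (by
      intro X σ v0 c hv0 h hn
      push Not at hn
      obtain ⟨p, u, v, hu, hv, a1, a2, a3, a4, a5⟩ := hn
      have hK' := convex_bound m D hD p u v _ _ _ hu hv a4 a5
      have hJ : (u, v) ∈ J0 K := by
        simp only [J0, mem_filter, mem_product, mem_Icc]
        exact ⟨⟨⟨hu, le_trans (Nat.le_mul_of_pos_right _ hv) hK'⟩, hv,
          le_trans (Nat.le_mul_of_pos_left _ hu) hK'⟩, hK'⟩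
      have up : ∀ i, i ≠ v0 → (σ.update v0 c) i = σ i := fun i hi => by
        simp [Finsupp.update_apply, hi]
      have up0 : (σ.update v0 c) v0 = c := by simp
      by_cases c1 : p = v0
      · subst c1
        have n2 : p + u ≠ p := by omega
        have n3 : p + u + v ≠ p := by omega
        rw [up0, up _ n2, up _ n3] at a5
        exact ⟨(0, u, v), mem_product.2 ⟨mem_univ _, hJ⟩, (mem_insert.1 a3).resolve_left n3,
          (mem_insert.1 a2).resolve_left n2, by simp; omega, hu, a5⟩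
      by_cases c2 : p + u = v0
      · have n3 : p + u + v ≠ v0 := by omega
        rw [up _ c1, up _ n3, c2, up0] at a5
        have e : v0 - u = p := by omega
        refine ⟨(1, u, v), mem_product.2 ⟨mem_univ _, hJ⟩, ?_, ?_, by simp; omega, hu, ?_⟩
        · simpa [e] using (mem_insert.1 a1).resolve_left c1
        · simpa [c2] using (mem_insert.1 a3).resolve_left n3
        · simpa [e] using a5
      by_cases c3 : p + u + v = v0
      · rw [up _ c1, up _ c2, c3, up0] at a5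
        have e : v0 - v - u = p := by omega
        have e2 : v0 - v = p + u := by omega
        refine ⟨(2, u, v), mem_product.2 ⟨mem_univ _, hJ⟩, ?_, ?_, by simp; omega, hu, ?_⟩
        · simpa [e2] using (mem_insert.1 a1).resolve_left c1
        · simpa [e2] using (mem_insert.1 a2).resolve_left c2
        · simpa [e2] using a5
      · rw [up _ c1, up _ c2, up _ c3] at a5
        rw [up _ c2] at a4
        exact absurd a5 (h p u v hu hv ((mem_insert.1 a1).resolve_left c1)
          ((mem_insert.1 a2).resolve_left c2) ((mem_insert.1 a3).resolve_left c3) a4))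
    (by
      rintro v0 ⟨r, u, v⟩ s
      dsimp only
      rcases Nat.eq_zero_or_pos u with rfl | hu
      · simp; positivity
      have g1 : Nat.gcd u (u + v) = Nat.gcd u v := by simp
      have g2 : Nat.gcd v (u + v) = Nat.gcd u v := by simp [Nat.gcd_comm]
      by_cases r0 : r = 0
      · rw [← g2]
        refine sols m v (u + v) (by omega) (F m D v0 - (F m D (v0 + u + v) + s))
          (F m D (v0 + u) - (F m D (v0 + u + v) + s)) Prod.swap (Or.inr rfl) _ fun e he => ?_
        simp only [mem_filter, mem_product, mem_range, r0, if_true, hC] at he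
        refine ⟨he.1.1, he.1.2, ?_⟩
        have := he.2.2
        simp only [Prod.fst_swap, Prod.snd_swap]
        push_cast at this ⊢
        linear_combination this
      by_cases r1 : r = 1
      · rw [← g1]
        refine sols m u (u + v) (by omega) (F m D (v0 - u + u + v) - (F m D (v0 - u) + s))
          (F m D (v0 - u + u) - (F m D (v0 - u) + s)) id (Or.inl rfl) _ fun e he => ?_
        simp only [mem_filter, mem_product, mem_range, if_neg r0, if_pos r1, hC] at he
        refine ⟨he.1.1, he.1.2, ?_⟩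
        have := he.2.2
        simp only [id]
        push_cast at this ⊢
        linear_combination this
      · rw [← g1]
        refine sols m u (u + v) (by omega)
          (F m D (v0 - v - u + u + v) - (F m D (v0 - v - u) + s))
          (F m D (v0 - v - u + u) - (F m D (v0 - v - u) + s)) Prod.swap (Or.inr rfl) _
          fun e he => ?_
        simp only [mem_filter, mem_product, mem_range, if_neg r0, if_neg r1, hC] at he
        refine ⟨he.1.1, he.1.2, ?_⟩
        have := he.2.2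
        simp only [Prod.fst_swap, Prod.snd_swap]
        push_cast at this ⊢
        linear_combination this)
    (by
      rw [sum_product]
      simp only [sum_const, card_univ, Fintype.card_fin, nsmul_eq_mul, sum_add_distrib, ← mul_sum]
      have := mul_le_mul_of_nonneg_left (wsum K R hR) (show (0:ℝ) ≤ m by positivity)
      push_cast at this hc ⊢
      linarith) X
  exact ⟨σ, h1, fun p u v hu hv a1 a2 a3 => h2 p u v hu hv a1 a2 a3 (h1 _ a2)⟩

lemma attained (m D R : ℕ) (hm : 0 < m) (hD : 0 < D) (hR : D * (m + 1) < (R + 1) * (R + 1))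
    (hc : 3 * (((J0 (D * (m + 1))).card : ℝ) + m * (2 * ((J0 R).card
      * (1 + Real.log (D * (m + 1) : ℕ))))) ≤ (m : ℝ)^2 / 4) :
    Attained (3 * D * m^2) (D * m) := by
  obtain ⟨b, hb, hcol⟩ := exists_seq m D R hm hD hR hc (Icc 1 (D * m : ℕ))
  have hDz : (0:ℤ) < D := by exact_mod_cast hD
  have hmz : (0:ℤ) < m := by exact_mod_cast hm
  have hn : 1 ≤ D * m := Nat.mul_pos hD hm
  have mem : ∀ i : ℕ, 1 ≤ i → i ≤ D * m → (i : ℤ) ∈ Icc (1:ℤ) (D * m : ℕ) := fun i a b =>
    mem_Icc.2 ⟨by exact_mod_cast a, by exact_mod_cast b⟩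
  refine ⟨fun j => F m D j + b j, ?_, ?_, ?_, ?_⟩
  · have : (0:ℤ) ≤ 1 * 1 / D := Int.ediv_nonneg (by norm_num) hDz.le
    simp only [F]; push_cast; positivity
  · intro i j hi hij hj
    have a1 : (b i : ℤ) < m := by exact_mod_cast hb _ (mem i hi (by omega))
    have hij' : (i : ℤ) + 1 ≤ j := by exact_mod_cast hij
    have a2 : (i : ℤ) * i / D ≤ j * j / D := Int.ediv_le_ediv hDz (by nlinarith)
    have a3 : (0:ℤ) ≤ b j := Int.natCast_nonneg _
    simp only [F]
    nlinarith
  · have a1 : (b (D * m : ℕ) : ℤ) < m := by exact_mod_cast hb _ (mem _ hn le_rfl)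
    have a2 : ((D * m : ℕ) : ℤ) * (D * m : ℕ) / D = D * m * m := by
      push_cast
      rw [show (D:ℤ) * m * (D * m) = D * (D * m * m) by ring, Int.mul_ediv_cancel_left _ hDz.ne']
    have : F m D (D * m : ℕ) + b (D * m : ℕ) ≤ 3 * D * m^2 := by
      simp only [F]; rw [a2]; push_cast at a1 ⊢; nlinarith [mul_pos hDz hmz]
    exact_mod_cast this
  · intro i j k hi hij hjk hk hcl
    obtain ⟨u, rfl⟩ : ∃ u, j = i + u := ⟨j - i, by omega⟩
    obtain ⟨v, rfl⟩ : ∃ v, k = i + u + v := ⟨k - (i + u), by omega⟩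
    refine hcol i u v (by omega) (by omega) (mem i hi (by omega))
      (by exact_mod_cast mem (i + u) (by omega) (by omega))
      (by exact_mod_cast mem (i + u + v) (by omega) hk) ?_
    rw [collinear_iff_of_mem (Set.mem_insert _ _)] at hcl
    obtain ⟨d, hd⟩ := hcl
    obtain ⟨r1, h1⟩ := hd _ (Set.mem_insert_of_mem _ (Set.mem_insert _ _))
    obtain ⟨r2, h2⟩ := hd _ (Set.mem_insert_of_mem _ (Set.mem_insert_of_mem _ rfl))
    simp only [Prod.ext_iff, vadd_eq_add, Prod.fst_add, Prod.snd_add, Prod.smul_fst, Prod.smul_snd,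
      smul_eq_mul] at h1 h2
    push_cast at h1 h2
    have : (u : ℝ) * ((F m D (i + u + v) : ℝ) + b (i + u + v) - (F m D i + b i))
        = ((u:ℝ) + v) * (F m D (i + u) + b (i + u) - (F m D i + b i)) := by
      have e1 : (u : ℝ) = r1 * d.1 := by linarith [h1.1]
      have e2 : (u : ℝ) + v = r2 * d.1 := by linarith [h2.1]
      rw [e2, h1.2, h2.2, e1]; ring
    exact_mod_cast this

lemma le_N {x : ℝ} {n : ℕ} (hn : 1 ≤ n) (h : Attained x n) : n ≤ N x := by
  refine le_csSup ⟨⌊x⌋₊, ?_⟩ ⟨hn, h⟩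
  rintro k ⟨hk, a, a1, a2, a3, -⟩
  have : ∀ j, 1 ≤ j → j ≤ k → (j : ℤ) ≤ a j := by
    intro j hj
    induction j, hj using Nat.le_induction with
    | base => intro _; exact_mod_cast a1
    | succ j hj ih => intro h; have := ih (by omega); have := a2 j (j+1) hj (by omega) h; omega
  refine Nat.le_floor (le_trans ?_ a3)
  exact_mod_cast this k hk le_rfl

lemma main (k : ℕ) : ∀ᶠ t : ℕ in atTop, t^(2*k+1) ≤ N (3 * (t:ℝ)^(3*k+2)) := by
  have h1 := (Real.isLittleO_pow_log_id_atTop (n := 4)).bound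
    (show (0:ℝ) < 1 / (4608 * (2 * k + 3)^4) by positivity)
  have h2 := Real.tendsto_log_atTop.eventually (eventually_ge_atTop 1)
  filter_upwards [tendsto_natCast_atTop_atTop.eventually h1,
    tendsto_natCast_atTop_atTop.eventually h2, eventually_ge_atTop 2] with t a1 a2 a3
  have ht : (2:ℝ) ≤ t := by exact_mod_cast a3
  have hm : 0 < t^(k+1) := by positivity
  have hD : 0 < t^k := by positivity
  set m := t^(k+1) with hmdef
  set D := t^k with hDdef
  set K := D * (m + 1) with hK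
  set R := Nat.sqrt K with hR
  have hK0 : 0 < K := by positivity
  have hmD : (m : ℝ) = t * D := by rw [hmdef, hDdef]; push_cast; ring
  have hKr : (K : ℝ) ≤ 2 * D * m := by
    have : (1:ℝ) ≤ m := by exact_mod_cast hm
    rw [hK]; push_cast; nlinarith [(Nat.cast_nonneg D : (0:ℝ) ≤ D)]
  set H : ℝ := 1 + Real.log K with hH
  have hH1 : 1 ≤ H := by have := Real.log_natCast_nonneg K; linarith
  have hH2 : H ≤ (2 * k + 3) * Real.log t := by
    have : (K : ℝ) ≤ (t:ℝ)^(2*k+2) := by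
      refine hKr.trans ?_
      rw [hmD, hDdef]; push_cast
      have : (t:ℝ)^(2*k+2) = t * t^k * (t * t^k) := by ring
      rw [this]; gcongr
    have := Real.log_le_log (by exact_mod_cast hK0) this
    rw [Real.log_pow] at this
    push_cast at this
    linarith
  have hH4 : 4608 * H^4 ≤ t := by
    simp only [Real.norm_eq_abs, id] at a1
    rw [abs_of_nonneg (by positivity), abs_of_nonneg (by positivity)] at a1
    have b1 : H^4 ≤ ((2 * k + 3) * Real.log t)^4 := pow_le_pow_left₀ (by linarith) hH2 4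
    rw [mul_pow] at b1
    rw [one_div, ← div_eq_inv_mul, le_div_iff₀ (by positivity)] at a1
    linarith
  have hDr : (0:ℝ) < D := by exact_mod_cast hD
  have hmr : (0:ℝ) < m := by exact_mod_cast hm
  have c1 : ((J0 K).card : ℝ) ≤ K * H := J0_card K
  have hRK : R ≤ K := Nat.sqrt_le_self K
  have c2 : ((J0 R).card : ℝ) ≤ R * H := by
    refine (J0_card R).trans (mul_le_mul_of_nonneg_left ?_ (Nat.cast_nonneg _))
    have : (0:ℝ) < R := by exact_mod_cast Nat.sqrt_pos.2 hK0
    have := Real.log_le_log this (show (R:ℝ) ≤ K by exact_mod_cast hRK)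
    linarith
  have c3 : (R : ℝ) * R ≤ K := by exact_mod_cast Nat.sqrt_le K
  have hHH : H ≤ H^4 := le_self_pow₀ hH1 (by norm_num)
  have d1 : 4608 * D * H^4 ≤ m := by rw [hmD]; nlinarith
  have d2 : 48 * R * H^2 ≤ m := by
    refine (pow_le_pow_iff_left₀ (by positivity) hmr.le two_ne_zero).1 ?_
    have : (R:ℝ) * R * H^4 ≤ 2 * D * m * H^4 := mul_le_mul_of_nonneg_right (c3.trans hKr) (by positivity)
    nlinarith [mul_le_mul_of_nonneg_left d1 hmr.le]
  have d3 : K * H ≤ (m:ℝ)^2 / 24 := by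
    have : K * H ≤ 2 * D * m * H^4 := by gcongr
    nlinarith
  have := attained m D R hm hD (Nat.lt_succ_sqrt K) (by
    rw [← hK, ← hH]
    have e1 : ((J0 R).card : ℝ) * H ≤ R * H * H := by gcongr
    nlinarith)
  have e1 : D * m = t^(2*k+1) := by rw [hmdef, hDdef]; ring
  have e2 : 3 * (D:ℝ) * (m:ℝ)^2 = 3 * (t:ℝ)^(3*k+2) := by rw [hmdef, hDdef]; push_cast; ring
  rw [e1, e2] at this
  exact le_N (Nat.one_le_iff_ne_zero.2 (by positivity)) this

end H11.NoLine

open H11.NoLine Filter in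
theorem Pool.Agent.Results.MP_6d8139_co.Beats.result :
    (¬ ∃ C : ℝ, ∀ x : ℝ, 1 ≤ x → (N x : ℝ) ≤ C * Real.sqrt x) ∧
    ∀ k : ℕ, ∀ᶠ t : ℕ in atTop, t^(2*k+1) ≤ N (3 * (t:ℝ)^(3*k+2)) := by
  refine ⟨?_, main⟩
  rintro ⟨C, hC⟩
  obtain ⟨t, h1, h2, h3⟩ := ((main 1).and ((eventually_ge_atTop 1).and
    (tendsto_natCast_atTop_atTop.eventually (eventually_gt_atTop (3 * C^2))))).exists
  have ht : (1:ℝ) ≤ t := by exact_mod_cast h2
  have a1 := hC (3 * (t:ℝ)^(3*1+2)) (by nlinarith [one_le_pow₀ (n := 3*1+2) ht])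
  have a2 : (t:ℝ)^(2*1+1) ≤ C * Real.sqrt (3 * (t:ℝ)^(3*1+2)) :=
    le_trans (by exact_mod_cast h1) a1
  have a3 := pow_le_pow_left₀ (by positivity) a2 2
  rw [mul_pow, Real.sq_sqrt (by positivity)] at a3
  have a4 : (0:ℝ) < (t:ℝ)^5 := by positivity
  norm_num at a3
  nlinarith
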